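import Pool.Agent.LPK.Stmts

/-!
# Squad LPK, row PSZ: Poisson summation for `ℤ^n`
-/

set_option autoImplicit false

noncomputable section

open MeasureTheory Filter Topology

namespace Pool.Agent.LPK.H36

open Pool.Agent.LPK

variable {n : ℕ}

/-- the integer vector as a real vector -/
def iv (k : Fin n → ℤ) : Fin n → ℝ := fun i => (k i : ℝ)

/-- the box `k + (0,1]^n` -/
def box (k : Fin n → ℤ) : Set (Fin n → ℝ) := {x | ∀ i, x i ∈ Set.Ioc (k i : ℝ) (k i + 1)}

theorem box_meas (k : Fin n → ℤ) : MeasurableSet (box k) :=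
  MeasurableSet.univ_pi' (fun _ => measurableSet_Ioc)

theorem box_disj : Pairwise (Function.onFun Disjoint (box (n := n))) := by
  intro k l hkl
  rw [Function.onFun, Set.disjoint_left]
  intro x hx hx'
  apply hkl
  funext i
  obtain ⟨h1, h2⟩ := hx i
  obtain ⟨h3, h4⟩ := hx' i
  have h5 : (k i : ℝ) < l i + 1 := lt_of_lt_of_le h1 h4
  have h6 : (l i : ℝ) < k i + 1 := lt_of_lt_of_le h3 h2
  have h7 : k i < l i + 1 := by exact_mod_cast h5
  have h8 : l i < k i + 1 := by exact_mod_cast h6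
  omega

theorem box_union : ⋃ k, box (n := n) k = Set.univ := by
  rw [Set.eq_univ_iff_forall]
  intro x
  rw [Set.mem_iUnion]
  refine ⟨fun i => ⌈x i⌉ - 1, fun i => ⟨?_, ?_⟩⟩
  · have := Int.ceil_lt_add_one (x i)
    push_cast
    linarith
  · have := Int.le_ceil (x i)
    push_cast
    linarith

theorem box_shift {E : Type} [NormedAddCommGroup E] [NormedSpace ℝ E] (G : (Fin n → ℝ) → E)
    (k : Fin n → ℤ) : ∫ x in box k, G x = ∫ x in box (0 : Fin n → ℤ), G (x + iv k) := by
  have h1 := (measurePreserving_add_right (volume : Measure (Fin n → ℝ))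
    (iv k)).setIntegral_preimage_emb (MeasurableEquiv.addRight (iv k)).measurableEmbedding G (box k)
  have h2 : (fun x : Fin n → ℝ => x + iv k) ⁻¹' box k = box 0 := by
    ext x
    constructor
    · intro h i
      obtain ⟨h1, h2⟩ := h i
      simp only [Pi.add_apply, iv] at h1 h2
      simp only [Pi.zero_apply, Int.cast_zero]
      exact ⟨by linarith, by linarith⟩
    · intro h i
      obtain ⟨h1, h2⟩ := h i
      simp only [Pi.zero_apply, Int.cast_zero] at h1 h2
      simp only [Pi.add_apply, iv]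
      exact ⟨by linarith, by linarith⟩
  rw [h2] at h1
  exact h1.symm

/-- unfolding -/
theorem unfold_int (G : (Fin n → ℝ) → ℂ) (hG : Integrable G) :
    ∫ x in box (0 : Fin n → ℤ), ∑' k : Fin n → ℤ, G (x + iv k) = ∫ x, G x := by
  have h1 := hasSum_integral_iUnion (f := G) (μ := volume) (box_meas (n := n)) box_disj
    hG.integrableOn
  have h2 := hasSum_integral_iUnion (f := fun x => ‖G x‖) (μ := volume) (box_meas (n := n))
    box_disj hG.norm.integrableOn
  rw [box_union, setIntegral_univ] at h1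
  have h3 : Summable fun k : Fin n → ℤ => ∫ x in box (0 : Fin n → ℤ), ‖G (x + iv k)‖ := by
    refine h2.summable.congr fun k => ?_
    exact box_shift (fun x => ‖G x‖) k
  have h4 := hasSum_integral_of_summable_integral_norm (μ := volume.restrict (box (0 : Fin n → ℤ)))
    (F := fun (k : Fin n → ℤ) x => G (x + iv k))
    (fun k => (hG.comp_add_right (iv k)).integrableOn) h3
  have h5 : HasSum (fun k : Fin n → ℤ => ∫ x in box (0 : Fin n → ℤ), G (x + iv k))
      (∫ x, G x) := by
    refine h1.congr_fun fun k => ?_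
    exact (box_shift G k).symm
  exact h4.unique h5

/-! ### summability -/

theorem summ1 {c : ℝ} (hc : 0 < c) : Summable fun k : ℤ => Real.exp (-c * (k : ℝ) ^ 2) := by
  have h1 : Summable fun k : ℕ => Real.exp (-c * (k : ℝ) ^ 2) :=
    Real.summable_exp_nat_mul_of_ge (neg_lt_zero.2 hc) fun i => by
      have : (i : ℕ) ≤ i ^ 2 := Nat.le_self_pow (by norm_num) i
      exact_mod_cast this
  apply Summable.of_nat_of_neg
  · exact_mod_cast h1
  · refine h1.congr fun k => ?_
    push_cast
    rw [neg_sq]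

theorem summ {c : ℝ} (hc : 0 < c) (n : ℕ) :
    Summable fun k : Fin n → ℤ => Real.exp (-c * ∑ i, (k i : ℝ) ^ 2) := by
  induction n with
  | zero => exact Summable.of_finite
  | succ n ih =>
    rw [← (Fin.consEquiv (fun _ : Fin (n + 1) => ℤ)).summable_iff]
    have h1 := (summ1 hc).mul_of_nonneg ih (fun _ => (Real.exp_pos _).le)
      (fun _ => (Real.exp_pos _).le)
    refine h1.congr fun p => ?_
    show Real.exp (-c * (p.1 : ℝ) ^ 2) * Real.exp (-c * ∑ i, (p.2 i : ℝ) ^ 2) =
      Real.exp (-c * ∑ i : Fin (n + 1), (((Fin.cons p.1 p.2 : Fin (n + 1) → ℤ) i : ℤ) : ℝ) ^ 2)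
    rw [← Real.exp_add, Fin.sum_univ_succ]
    simp only [Fin.cons_zero, Fin.cons_succ]
    congr 1
    ring

theorem int_gauss {c : ℝ} (hc : 0 < c) (n : ℕ) :
    Integrable fun x : Fin n → ℝ => Real.exp (-c * ∑ i, x i ^ 2) := by
  have h1 := Integrable.fintype_prod (𝕜 := ℝ) (ι := Fin n) (E := ℝ)
    (f := fun _ x => Real.exp (-c * x ^ 2)) (μ := fun _ => volume)
    (fun _ => integrable_exp_neg_mul_sq hc)
  refine h1.congr (Eventually.of_forall fun x => ?_)
  show ∏ i, Real.exp (-c * x i ^ 2) = Real.exp (-c * ∑ i, x i ^ 2)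
  rw [← Real.exp_sum, Finset.mul_sum]

section
variable {f : (Fin n → ℝ) → ℝ} {C c : ℝ} (hc : 0 < c) (hf : Continuous f)
  (hb : ∀ x, |f x| ≤ C * Real.exp (-c * ∑ i, x i ^ 2))

include hb in
theorem C_nonneg : 0 ≤ C := by
  have h1 := hb 0
  have h2 : C * Real.exp (-c * ∑ i : Fin n, ((0 : Fin n → ℝ) i) ^ 2) = C := by simp
  rw [h2] at h1
  exact (abs_nonneg _).trans h1

include hc hf hb in
theorem f_int : Integrable f := by
  refine ((int_gauss hc n).const_mul C).mono' hf.aestronglyMeasurable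
    (Eventually.of_forall fun x => ?_)
  rw [Real.norm_eq_abs]
  exact hb x

include hc hf hb in
theorem F_cont : Continuous fun x : Fin n → ℝ => ∑' k : Fin n → ℤ, (f (x + iv k) : ℂ) := by
  rw [continuous_iff_continuousAt]
  intro x0
  obtain ⟨R, hR⟩ : ∃ R : ℝ, R = ‖x0‖ + 1 := ⟨_, rfl⟩
  have hx0 : x0 ∈ Metric.ball (0 : Fin n → ℝ) R := by
    rw [Metric.mem_ball, dist_zero_right, hR]
    linarith
  have hC := C_nonneg hb
  have h1 : ContinuousOn (fun x : Fin n → ℝ => ∑' k : Fin n → ℤ, (f (x + iv k) : ℂ))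
      (Metric.ball (0 : Fin n → ℝ) R) := by
    refine continuousOn_tsum
      (u := fun k : Fin n → ℤ => C * Real.exp (c * (n * R ^ 2)) *
        Real.exp (-(c / 2) * ∑ i, (k i : ℝ) ^ 2)) ?_ ((summ (half_pos hc) n).mul_left _) ?_
    · intro k
      exact (Complex.continuous_ofReal.comp (hf.comp (continuous_id.add continuous_const))).continuousOn
    · intro k x hx
      rw [Complex.norm_real, Real.norm_eq_abs]
      refine (hb _).trans ?_
      rw [mul_assoc, ← Real.exp_add]
      refine mul_le_mul_of_nonneg_left (Real.exp_le_exp.2 ?_) hC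
      have h2 : ∀ i, (k i : ℝ) ^ 2 / 2 - R ^ 2 ≤ (x + iv k) i ^ 2 := by
        intro i
        have h3 : |x i| ≤ R := by
          have h4 := norm_le_pi_norm x i
          rw [Real.norm_eq_abs] at h4
          rw [Metric.mem_ball, dist_zero_right] at hx
          linarith
        have h5 : x i ^ 2 ≤ R ^ 2 := by
          rw [← sq_abs]
          exact pow_le_pow_left₀ (abs_nonneg _) h3 2
        simp only [Pi.add_apply, iv]
        nlinarith [sq_nonneg (2 * x i + (k i : ℝ))]
      have h3 : ∑ i : Fin n, ((k i : ℝ) ^ 2 / 2 - R ^ 2) ≤ ∑ i, (x + iv k) i ^ 2 :=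
        Finset.sum_le_sum fun i _ => h2 i
      rw [Finset.sum_sub_distrib, ← Finset.sum_div, Finset.sum_const, Finset.card_univ,
        Fintype.card_fin, nsmul_eq_mul] at h3
      nlinarith
  exact h1.continuousAt (Metric.isOpen_ball.mem_nhds hx0)

theorem F_per (f : (Fin n → ℝ) → ℝ) (x : Fin n → ℝ) (l : Fin n → ℤ) :
    ∑' k : Fin n → ℤ, (f (x + iv l + iv k) : ℂ) = ∑' k : Fin n → ℤ, (f (x + iv k) : ℂ) := by
  rw [← (Equiv.addLeft l).tsum_eq (fun k : Fin n → ℤ => (f (x + iv k) : ℂ))]
  apply tsum_congr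
  intro k
  have : iv (l + k) = iv l + iv k := by
    funext i
    simp [iv]
  rw [Equiv.coe_addLeft, this, add_assoc]

/-- the projection to the torus -/
def pr (x : Fin n → ℝ) : UnitAddTorus (Fin n) := fun i => (x i : UnitAddCircle)

theorem pr_quot : IsOpenQuotientMap (pr (n := n)) :=
  IsOpenQuotientMap.piMap fun _ => QuotientAddGroup.isOpenQuotientMap_mk

/-- a representative -/
def rep (z : UnitAddTorus (Fin n)) : Fin n → ℝ := fun i => (AddCircle.equivIoc (1 : ℝ) 0 (z i) : ℝ)

theorem rep_pr (x : Fin n → ℝ) : ∃ l : Fin n → ℤ, rep (pr x) = x + iv l := by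
  have h1 : ∀ i, ∃ l : ℤ, rep (pr x) i = x i + l := by
    intro i
    have h2 : ((rep (pr x) i : ℝ) : UnitAddCircle) = (x i : UnitAddCircle) :=
      AddCircle.coe_equivIoc
    have h3 : ((rep (pr x) i - x i : ℝ) : UnitAddCircle) = 0 := by
      rw [AddCircle.coe_sub, h2, sub_self]
    obtain ⟨l, hl⟩ := (AddCircle.coe_eq_zero_iff (1 : ℝ)).1 h3
    refine ⟨l, ?_⟩
    rw [zsmul_eq_mul, mul_one] at hl
    rw [hl]
    ring
  choose l hl using h1
  exact ⟨l, funext hl⟩

theorem mF (m : Fin n → ℤ) (x : Fin n → ℝ) :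
    UnitAddTorus.mFourier (-m) (fun i => (x i : UnitAddCircle)) =
      Complex.exp (-(2 * Real.pi * (∑ i, (m i : ℝ) * x i) : ℝ) * Complex.I) := by
  show ∏ i, fourier ((-m) i) (x i : UnitAddCircle) = _
  have h1 : ∀ i, fourier ((-m) i) (x i : UnitAddCircle) =
      Complex.exp (-(2 * Real.pi * ((m i : ℝ) * x i) : ℝ) * Complex.I) := by
    intro i
    rw [fourier_coe_apply]
    congr 1
    push_cast
    simp only [Pi.neg_apply, Int.cast_neg]
    ring
  rw [Finset.prod_congr rfl fun i _ => h1 i, ← Complex.exp_sum]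
  congr 1
  rw [← Finset.sum_mul]
  congr 1
  push_cast
  rw [Finset.mul_sum, Finset.sum_neg_distrib]

end

theorem psz : PszStmt := by
  intro n f C c hc hf hev hb hsum
  have hfi := f_int hc hf hb
  have hFc := F_cont hc hf hb
  obtain ⟨F0, hF0⟩ : ∃ F0 : (Fin n → ℝ) → ℂ, F0 = fun x => ∑' k : Fin n → ℤ, (f (x + iv k) : ℂ) :=
    ⟨_, rfl⟩
  have hF0c : Continuous F0 := by
    rw [hF0]
    exact hFc
  have hlift : ∀ x, F0 (rep (pr x)) = F0 x := by
    intro x
    obtain ⟨l, hl⟩ := rep_pr x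
    rw [hl, hF0]
    exact F_per f x l
  have hcomp : (fun z => F0 (rep z)) ∘ pr (n := n) = F0 := funext hlift
  obtain ⟨F, hF⟩ : ∃ F : C(UnitAddTorus (Fin n), ℂ), ∀ z, F z = F0 (rep z) :=
    ⟨⟨fun z => F0 (rep z), pr_quot.isQuotientMap.continuous_iff.2 (by
      rw [hcomp]
      exact hF0c)⟩, fun _ => rfl⟩
  -- the integrals
  obtain ⟨θ, hθ⟩ : ∃ θ : (Fin n → ℤ) → (Fin n → ℝ) → ℝ,
      θ = fun m x => 2 * Real.pi * ∑ i, (m i : ℝ) * x i := ⟨_, rfl⟩
  have hθc : ∀ m, Continuous (θ m) := by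
    intro m
    rw [hθ]
    fun_prop
  have hθs : ∀ (m k : Fin n → ℤ) (x : Fin n → ℝ), ∃ j : ℤ,
      θ m (x + iv k) = θ m x + j * (2 * Real.pi) := by
    intro m k x
    refine ⟨∑ i, m i * k i, ?_⟩
    rw [hθ]
    simp only [Pi.add_apply, iv, mul_add, Finset.sum_add_distrib]
    push_cast
    ring
  have hes : ∀ (m k : Fin n → ℤ) (x : Fin n → ℝ),
      Complex.exp (-(θ m (x + iv k) : ℝ) * Complex.I) = Complex.exp (-(θ m x : ℝ) * Complex.I) := by
    intro m k x
    obtain ⟨j, hj⟩ := hθs m k x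
    rw [hj, Complex.exp_eq_exp_iff_exists_int]
    refine ⟨-j, ?_⟩
    push_cast
    ring
  have hco : ∀ m : Fin n → ℤ, UnitAddTorus.mFourierCoeff F m =
      ((∫ x : Fin n → ℝ, f x * Real.cos (θ m x) : ℝ) : ℂ) := by
    intro m
    rw [UnitAddTorus.mFourierCoeff_eq_integral F m 0]
    obtain ⟨G, hG⟩ : ∃ G : (Fin n → ℝ) → ℂ, G = fun x =>
        Complex.exp (-(θ m x : ℝ) * Complex.I) * (f x : ℂ) := ⟨_, rfl⟩
    have hexpc : Continuous fun x : Fin n → ℝ => Complex.exp (-(θ m x : ℝ) * Complex.I) :=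
      Complex.continuous_exp.comp ((Complex.continuous_ofReal.comp (hθc m)).neg.mul
        continuous_const)
    have hGi : Integrable G := by
      refine hfi.norm.mono' ?_ (Eventually.of_forall fun x => ?_)
      · rw [hG]
        exact (hexpc.mul (Complex.continuous_ofReal.comp hf)).aestronglyMeasurable
      · rw [hG]
        show ‖Complex.exp (-(θ m x : ℝ) * Complex.I) * (f x : ℂ)‖ ≤ ‖f x‖
        rw [norm_mul, Complex.norm_real, ← Complex.ofReal_neg, Complex.norm_exp_ofReal_mul_I,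
          one_mul]
    have hset : {x : Fin n → ℝ | ∀ i, x i ∈ Set.Ioc ((0 : Fin n → ℝ) i) ((0 : Fin n → ℝ) i + 1)} =
        box (0 : Fin n → ℤ) := by
      ext x
      simp [box]
    rw [hset]
    have h1 : ∀ x : Fin n → ℝ, UnitAddTorus.mFourier (-m) (fun i => (x i : UnitAddCircle)) •
        F (fun i => (x i : UnitAddCircle)) = ∑' k : Fin n → ℤ, G (x + iv k) := by
      intro x
      have h2 : F (fun i => (x i : UnitAddCircle)) = F0 x := by
        rw [hF]
        exact hlift x
      rw [h2, mF m x, smul_eq_mul, hF0, hG]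
      show _ * ∑' k : Fin n → ℤ, (f (x + iv k) : ℂ) = _
      rw [← tsum_mul_left]
      apply tsum_congr
      intro k
      show _ = Complex.exp (-(θ m (x + iv k) : ℝ) * Complex.I) * (f (x + iv k) : ℂ)
      rw [hes m k x, hθ]
    simp only [h1]
    rw [unfold_int G hGi]
    -- evenness
    have hcosi : Integrable fun x => f x * Real.cos (θ m x) := by
      refine hfi.norm.mono' (hf.mul (Real.continuous_cos.comp (hθc m))).aestronglyMeasurable
        (Eventually.of_forall fun x => ?_)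
      rw [norm_mul, Real.norm_eq_abs, Real.norm_eq_abs]
      exact mul_le_of_le_one_right (abs_nonneg _) (Real.abs_cos_le_one _)
    have hsini : Integrable fun x => f x * Real.sin (θ m x) := by
      refine hfi.norm.mono' (hf.mul (Real.continuous_sin.comp (hθc m))).aestronglyMeasurable
        (Eventually.of_forall fun x => ?_)
      rw [norm_mul, Real.norm_eq_abs, Real.norm_eq_abs]
      exact mul_le_of_le_one_right (abs_nonneg _) (Real.abs_sin_le_one _)
    have hsin0 : ∫ x, f x * Real.sin (θ m x) = 0 := by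
      have h2 := integral_neg_eq_self (fun x : Fin n → ℝ => f x * Real.sin (θ m x)) volume
      have h3 : ∀ x : Fin n → ℝ, f (-x) * Real.sin (θ m (-x)) = -(f x * Real.sin (θ m x)) := by
        intro x
        have h4 : θ m (-x) = -θ m x := by
          rw [hθ]
          simp
        rw [hev, h4, Real.sin_neg]
        ring
      simp only [h3] at h2
      rw [integral_neg] at h2
      linarith
    have h4 : ∀ x, G x = ((f x * Real.cos (θ m x) : ℝ) : ℂ) -
        ((f x * Real.sin (θ m x) : ℝ) : ℂ) * Complex.I := by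
      intro x
      rw [hG]
      show Complex.exp (-(θ m x : ℝ) * Complex.I) * (f x : ℂ) = _
      rw [← Complex.ofReal_neg, Complex.exp_mul_I, ← Complex.ofReal_cos, ← Complex.ofReal_sin,
        Real.cos_neg, Real.sin_neg]
      push_cast
      ring
    simp only [h4]
    rw [integral_sub hcosi.ofReal (hsini.ofReal.mul_const _), integral_mul_const,
      integral_complex_ofReal, integral_complex_ofReal, hsin0]
    simp
  -- the series
  have hS : Summable (UnitAddTorus.mFourierCoeff F) := by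
    have h1 : Summable fun m : Fin n → ℤ =>
        ((∫ x : Fin n → ℝ, f x * Real.cos (θ m x) : ℝ) : ℂ) := by
      rw [hθ]
      exact Complex.summable_ofReal.2 hsum
    exact h1.congr fun m => (hco m).symm
  have h1 := UnitAddTorus.hasSum_mFourier_series_apply_of_summable hS
    (fun i => ((0 : ℝ) : UnitAddCircle))
  have h2 : ∀ m : Fin n → ℤ, UnitAddTorus.mFourier m (fun i : Fin n => ((0 : ℝ) : UnitAddCircle)) =
      1 := by
    intro m
    have h3 := mF (-m) (0 : Fin n → ℝ)
    rw [neg_neg] at h3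
    have h4 : (fun i : Fin n => (((0 : Fin n → ℝ) i : ℝ) : UnitAddCircle)) =
        fun i : Fin n => ((0 : ℝ) : UnitAddCircle) := rfl
    rw [h4] at h3
    rw [h3]
    simp
  have h3 : F (fun i => ((0 : ℝ) : UnitAddCircle)) =
      ((∑' k : Fin n → ℤ, f (fun i => (k i : ℝ)) : ℝ) : ℂ) := by
    rw [hF]
    have h4 := hlift (0 : Fin n → ℝ)
    have h5 : pr (0 : Fin n → ℝ) = fun i : Fin n => ((0 : ℝ) : UnitAddCircle) := rfl
    rw [h5] at h4
    rw [h4, hF0, Complex.ofReal_tsum]
    apply tsum_congr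
    intro k
    rw [zero_add]
    rfl
  rw [h3] at h1
  have h4 : HasSum (fun m : Fin n → ℤ =>
      ((∫ x : Fin n → ℝ, f x * Real.cos (θ m x) : ℝ) : ℂ))
      ((∑' k : Fin n → ℤ, f (fun i => (k i : ℝ)) : ℝ) : ℂ) := by
    refine h1.congr_fun fun m => ?_
    rw [h2 m, hco m, smul_eq_mul, mul_one]
  have h5 := (Complex.hasSum_ofReal.1 h4).tsum_eq
  rw [← h5, hθ]

end Pool.Agent.LPK.H36
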